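import Pool.Agent.Helper55.LD8.FO
import Pool.Agent.Helper78.LD8.CORE

/-!
# LD8, block FO8, final form
-/

set_option autoImplicit false

namespace Pool.Agent.Helper55.LD8

open Set MeasureTheory
open Pool.Agent.Helper41.LD6 (hr vr Qs vq GQ Gr)
open Pool.Agent.Helper78.LD8
open Pool.Agent.Helper18.LD6 (Core)
open Pool.Agent.Helper78.LD8c (core)

variable {F : Pm} {K : ℕ} {ℓst a ℓ x : ℝ} {q q' : Fin (F.d + 1) → ℕ} {j j' : ℕ}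

theorem core_st (hF : F.Ok) (hK : F.Big K) (hN : F.NR K) (hℓ : 0 < ℓ) {p p' ϑ : ℝ} (hpq : p ≤ p') (hϑ : 0 < ϑ) :
    Core K F.t (fun τ => ϑ ≤ F.θ ^ τ * ℓ) (Uf F.θ F.c) p p'
      ((1 / 2) ^ (11 * F.e K) * (p' - p) + 2 ^ (2 * F.E K) * ℓ / ϑ) := by
  intro I hI hok f hf
  exact core hF hK hN hℓ hpq I hI hϑ hok f hf

theorem fast_one (hF : F.Ok) (hK : F.Big K) (hN : F.NR K) (hℓ : 0 < ℓ) {p p' ϑ : ℝ} (hpq : p ≤ p') (hϑ : 0 < ϑ) (hV : ϑ ≤ F.V K ℓst j * ℓ)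
    (hqs : q ∈ Qs F.d K) :
    |∫ x in p..p', F.G K ℓst q j x| ≤ (1 / 2) ^ (11 * F.e K) * (p' - p) + 2 ^ (2 * F.E K) * ℓ / ϑ := by
  have h0 : 0 ≤ p' - p := by linarith
  exact fast_one_of (by positivity) hF hℓ.le (core_st hF hK hN hℓ hpq hϑ) hV hqs

open Classical in
theorem fast_two (hF : F.Ok) (hK : F.Big K) (hN : F.NR K) (hℓ : 0 < ℓ) {ϑ : ℝ} (hϑ : 0 < ϑ) (hV : ϑ ≤ F.V K ℓst j * ℓ) (hV' : ϑ ≤ F.V K ℓst j' * ℓ)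
    (hqs : q ∈ Qs F.d K) (hqs' : q' ∈ Qs F.d K) (hj : j < 2 ^ (2 * K)) (hj' : j' < 2 ^ (2 * K)) :
    |(∫ x in a..(a + ℓ), F.G K ℓst q j x * F.G K ℓst q' j' x) - ℓ * (if j = j' ∧ q = q' then vq q else 0)| ≤
      ((1 / 2) ^ (11 * F.e K) + 2 ^ (2 * F.E K) / ϑ) * ℓ := by
  have e : (1 / 2 : ℝ) ^ (11 * F.e K) * (a + ℓ - a) + 2 ^ (2 * F.E K) * ℓ / ϑ =
      ((1 / 2) ^ (11 * F.e K) + 2 ^ (2 * F.E K) / ϑ) * ℓ := by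
    rw [add_sub_cancel_left]
    ring
  rw [← e]
  exact fast_two_of hF hℓ.le (core_st hF hK hN hℓ (by linarith) hϑ) hV hV' hqs hqs' hj hj'

end Pool.Agent.Helper55.LD8
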