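import Pool.Agent.Helper78.LD8.Defs
import Pool.Agent.Helper18.LD6.FO

/-!
# LD8, block FO8: one and two functionals, from the integrals of products of grid functions
-/

set_option autoImplicit false

namespace Pool.Agent.Helper55.LD8

open Set MeasureTheory
open Pool.Agent.Helper41.LD6 (hr vr Qs vq GQ Gr)
open Pool.Agent.Helper78.LD8
open Pool.Agent.Helper18.LD6 (Core one_of two_of)

variable {F : Pm} {K : ℕ} {ℓst a ℓ x : ℝ} {q q' : Fin (F.d + 1) → ℕ} {j j' : ℕ}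

theorem G_on (q : Fin (F.d + 1) → ℕ) (h : j < 2 ^ (2 * K)) (x : ℝ) :
    F.G K ℓst q j x = ∏ i : Fin (F.d + 1), hr (q i) (Uf F.θ F.c (F.n₀ K ℓst + j + i) x) := by
  unfold Pm.G GQ Pm.U
  rw [if_pos h]
  refine Finset.prod_congr rfl fun i _ => ?_
  rw [add_assoc]

theorem G_off (q : Fin (F.d + 1) → ℕ) (h : ¬ j < 2 ^ (2 * K)) (x : ℝ) : F.G K ℓst q j x = 0 := by
  unfold Pm.G GQ
  rw [if_neg h]

theorem ok_of {ϑ : ℝ} (hF : F.Ok) (hℓ : 0 ≤ ℓ) (hV : ϑ ≤ F.V K ℓst j * ℓ) (i : ℕ) :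
    ϑ ≤ F.θ ^ (F.n₀ K ℓst + j + i) * ℓ := by
  unfold Pm.V at hV
  exact hV.trans (mul_le_mul_of_nonneg_right (pow_le_pow_right₀ hF.h1.le (by omega)) hℓ)

theorem fast_one_of {p p' ϑ δ : ℝ} (hδ : 0 ≤ δ) (hF : F.Ok) (hℓ : 0 ≤ ℓ)
    (hcore : Core K F.t (fun τ => ϑ ≤ F.θ ^ τ * ℓ) (Uf F.θ F.c) p p' δ)
    (hV : ϑ ≤ F.V K ℓst j * ℓ) (hqs : q ∈ Qs F.d K) :
    |∫ x in p..p', F.G K ℓst q j x| ≤ δ := by
  by_cases h : j < 2 ^ (2 * K)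
  · simp only [G_on q h]
    exact one_of hcore (by unfold Pm.t; omega) hqs fun i _ => ok_of hF hℓ hV i
  · simp only [G_off q h, intervalIntegral.integral_zero, abs_zero]
    exact hδ

open Classical in
theorem fast_two_of {ϑ δ : ℝ} (hF : F.Ok) (hℓ : 0 ≤ ℓ)
    (hcore : Core K F.t (fun τ => ϑ ≤ F.θ ^ τ * ℓ) (Uf F.θ F.c) a (a + ℓ) δ)
    (hV : ϑ ≤ F.V K ℓst j * ℓ) (hV' : ϑ ≤ F.V K ℓst j' * ℓ) (hqs : q ∈ Qs F.d K) (hqs' : q' ∈ Qs F.d K)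
    (hj : j < 2 ^ (2 * K)) (hj' : j' < 2 ^ (2 * K)) :
    |(∫ x in a..(a + ℓ), F.G K ℓst q j x * F.G K ℓst q' j' x) - ℓ * (if j = j' ∧ q = q' then vq q else 0)| ≤ δ := by
  have h1 := two_of hcore (by unfold Pm.t; omega) hqs hqs' (fun i _ => ok_of hF hℓ hV i) (fun i _ => ok_of hF hℓ hV' i)
  rw [add_sub_cancel_left] at h1
  simp only [← G_on q hj, ← G_on q' hj'] at h1
  have e2 : (F.n₀ K ℓst + j = F.n₀ K ℓst + j' ∧ q = q') ↔ (j = j' ∧ q = q') := by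
    constructor
    · rintro ⟨h2, h3⟩
      exact ⟨by omega, h3⟩
    · rintro ⟨h2, h3⟩
      exact ⟨by omega, h3⟩
  simp only [e2] at h1
  exact h1

end Pool.Agent.Helper55.LD8
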